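import Pool.Agent.H84.B2.Targets
import Pool.Agent.H33.AR.RB

/-!
Local smoothing with one angular derivative, stage 2: module CAP (radial functions integrated over
a ball).
-/

set_option autoImplicit false

namespace Pool.Agent.H12.BR

open MeasureTheory Set
open Pool.Agent.H83.LS Pool.Agent.H93.AR Pool.Agent.H54.LS Pool.Agent.H83.AR
open scoped ENNReal NNReal

/-- integrals with respect to the radial measure -/
theorem lint_nu (n : ℕ) (F : ℝ → ℝ≥0∞) (hF : Measurable F) :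
    ∫⁻ ρ : Ioi (0 : ℝ), F ρ ∂(nu n) =
      ∫⁻ ρ in Ioi (0 : ℝ), ENNReal.ofReal (ρ ^ (n - 1)) * F ρ := by
  rw [(Pool.Agent.H33.AR.mp_nu n).lintegral_comp hF,
    lintegral_withDensity_eq_lintegral_mul _ (by fun_prop) hF]
  rfl

/-- polar coordinates for nonnegative functions -/
theorem lint_polar {n : ℕ} (hn : 1 ≤ n) (F : EE n → ℝ≥0∞) (hF : Measurable F) :
    ∫⁻ z, F z = ∫⁻ ρ : Ioi (0 : ℝ), ∫⁻ w : Sp n, F ((ρ : ℝ) • (w : EE n)) ∂(sg n) ∂(nu n) := by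
  rw [← (mp_polar n hn).lintegral_comp hF]
  have hm : Measurable fun q : Sp n × Ioi (0 : ℝ) => F ((q.2 : ℝ) • (q.1 : EE n)) :=
    hF.comp (mp_polar n hn).measurable
  exact lintegral_prod_symm _ hm.aemeasurable

theorem cap_bound {n : ℕ} {C : ℝ} (hC : 0 < C)
    (h : ∀ (ρ : ℝ) (u : EE n), 1 ≤ ρ → ‖u‖ = 1 →
      sg n {w : Sp n | ‖u - w‖ ≤ 1 / ρ} ≤ ENNReal.ofReal (C * (ρ ^ (n - 1))⁻¹))
    {δ ρ : ℝ} (hδ : 0 < δ) (hρ : 0 < ρ) (x : EE n) :
    ENNReal.ofReal (ρ ^ (n - 1)) * sg n {w : Sp n | ‖ρ • (w : EE n) - x‖ ≤ δ} ≤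
      ENNReal.ofReal (2 ^ (n - 1)) * (sg n univ + ENNReal.ofReal C) *
        ENNReal.ofReal (δ ^ (n - 1)) := by
  rcases le_or_gt ρ (2 * δ) with h1 | h1
  · calc ENNReal.ofReal (ρ ^ (n - 1)) * sg n {w : Sp n | ‖ρ • (w : EE n) - x‖ ≤ δ}
        ≤ ENNReal.ofReal ((2 * δ) ^ (n - 1)) * (sg n univ + ENNReal.ofReal C) := by
          gcongr
          exact (measure_mono (subset_univ _)).trans le_self_add
      _ = _ := by
          rw [mul_pow, ENNReal.ofReal_mul (by positivity)]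
          ring
  · by_cases hne : {w : Sp n | ‖ρ • (w : EE n) - x‖ ≤ δ} = ∅
    · rw [hne, measure_empty, mul_zero]
      exact zero_le
    obtain ⟨w₀, hw₀⟩ := nonempty_iff_ne_empty.2 hne
    have hn : ∀ w : Sp n, ‖ρ • (w : EE n)‖ = ρ := fun w => by
      rw [norm_smul, norm_sp, mul_one, Real.norm_of_nonneg hρ.le]
    have habs : |ρ - ‖x‖| ≤ δ := by
      have h2 := abs_norm_sub_norm_le (ρ • (w₀ : EE n)) x
      rw [hn] at h2
      exact h2.trans hw₀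
    have hx : 0 < ‖x‖ := by
      have := (abs_le.1 habs).2
      linarith
    have hu : ‖(‖x‖⁻¹ • x : EE n)‖ = 1 := by
      rw [norm_smul, norm_inv, norm_norm, inv_mul_cancel₀ hx.ne']
    have hsub : {w : Sp n | ‖ρ • (w : EE n) - x‖ ≤ δ} ⊆
        {w : Sp n | ‖(‖x‖⁻¹ • x : EE n) - w‖ ≤ 1 / (ρ / (2 * δ))} := by
      intro w hw
      have hw' : ‖ρ • (w : EE n) - x‖ ≤ δ := hw
      have h3 : ‖ρ • ((‖x‖⁻¹ • x : EE n) - w)‖ ≤ 2 * δ := by
        have h4 : ρ • ((‖x‖⁻¹ • x : EE n) - w) =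
            (ρ - ‖x‖) • (‖x‖⁻¹ • x : EE n) - (ρ • (w : EE n) - x) := by
          have h5 : ‖x‖ • (‖x‖⁻¹ • x : EE n) = x := by
            rw [smul_smul, mul_inv_cancel₀ hx.ne', one_smul]
          rw [sub_smul, h5, smul_sub]
          abel
        rw [h4]
        refine (norm_sub_le _ _).trans ?_
        rw [norm_smul, hu, mul_one, Real.norm_eq_abs]
        linarith
      rw [norm_smul, Real.norm_of_nonneg hρ.le] at h3
      show ‖(‖x‖⁻¹ • x : EE n) - w‖ ≤ 1 / (ρ / (2 * δ))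
      rw [one_div_div, le_div_iff₀ hρ]
      linarith
    have h6 := h (ρ / (2 * δ)) (‖x‖⁻¹ • x) (by rw [le_div_iff₀ (by positivity)]; linarith) hu
    calc ENNReal.ofReal (ρ ^ (n - 1)) * sg n {w : Sp n | ‖ρ • (w : EE n) - x‖ ≤ δ}
        ≤ ENNReal.ofReal (ρ ^ (n - 1)) *
          ENNReal.ofReal (C * ((ρ / (2 * δ)) ^ (n - 1))⁻¹) := by
          gcongr
          exact (measure_mono hsub).trans h6
      _ = ENNReal.ofReal (2 ^ (n - 1)) * ENNReal.ofReal C * ENNReal.ofReal (δ ^ (n - 1)) := by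
          rw [← ENNReal.ofReal_mul (by positivity), ← ENNReal.ofReal_mul (by positivity),
            ← ENNReal.ofReal_mul (by positivity)]
          congr 1
          rw [div_pow, mul_pow]
          field_simp
      _ ≤ _ := by
          gcongr
          exact le_add_self

theorem pf_cap (hSBL : T_SBL) : Pool.Agent.H84.B2.T_CAP := by
  intro n hn
  obtain ⟨C, hC, hS⟩ := hSBL n hn
  have hfin : sg n univ ≠ ⊤ := measure_ne_top _ _
  refine ⟨Real.toNNReal (2 ^ (n - 1)) * ((sg n univ).toNNReal + Real.toNNReal C), ?_⟩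
  intro δ x h hδ hh
  have hB : MeasurableSet {z : EE n | ‖z - x‖ ≤ δ} := by
    apply measurableSet_le _ measurable_const
    fun_prop
  have hI : MeasurableSet {ρ : ℝ | 0 < ρ ∧ |ρ - ‖x‖| ≤ δ} := by
    have h1 : MeasurableSet {ρ : ℝ | |ρ - ‖x‖| ≤ δ} :=
      measurableSet_le (by fun_prop) measurable_const
    exact (measurableSet_lt measurable_const measurable_id).inter h1
  have hFm : Measurable fun z : EE n => {z : EE n | ‖z - x‖ ≤ δ}.indicator (fun z => h ‖z‖) z :=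
    (hh.comp measurable_norm).indicator hB
  have hmw : ∀ ρ : ℝ, MeasurableSet {w : Sp n | ‖ρ • (w : EE n) - x‖ ≤ δ} := by
    intro ρ
    apply measurableSet_le _ measurable_const
    fun_prop
  have hns : ∀ ρ : ℝ, Measurable fun w : Sp n => ρ • (w : EE n) := fun ρ => by fun_prop
  have hmeas2 : Measurable fun ρ : ℝ => h ρ * sg n {w : Sp n | ‖ρ • (w : EE n) - x‖ ≤ δ} := by
    apply hh.mul
    have h1 : MeasurableSet {q : ℝ × Sp n | ‖q.1 • (q.2 : EE n) - x‖ ≤ δ} := by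
      apply measurableSet_le _ measurable_const
      fun_prop
    exact measurable_measure_prodMk_left h1
  rw [← lintegral_indicator hB, lint_polar hn _ hFm]
  have h2 : ∀ ρ : Ioi (0 : ℝ), ∫⁻ w : Sp n, {z : EE n | ‖z - x‖ ≤ δ}.indicator (fun z => h ‖z‖)
      ((ρ : ℝ) • (w : EE n)) ∂(sg n) = h ρ * sg n {w : Sp n | ‖(ρ : ℝ) • (w : EE n) - x‖ ≤ δ} := by
    intro ρ
    rw [← lintegral_indicator_const (hmw ρ)]
    refine lintegral_congr fun w => ?_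
    have h3 : ‖(ρ : ℝ) • (w : EE n)‖ = ρ := by
      rw [norm_smul, norm_sp, mul_one, Real.norm_of_nonneg (le_of_lt ρ.2)]
    by_cases hw : ‖(ρ : ℝ) • (w : EE n) - x‖ ≤ δ
    · rw [indicator_of_mem (show (ρ : ℝ) • (w : EE n) ∈ {z : EE n | ‖z - x‖ ≤ δ} from hw),
        indicator_of_mem (show w ∈ {w : Sp n | ‖(ρ : ℝ) • (w : EE n) - x‖ ≤ δ} from hw), h3]
    · rw [indicator_of_notMem (show (ρ : ℝ) • (w : EE n) ∉ {z : EE n | ‖z - x‖ ≤ δ} from hw),
        indicator_of_notMem (show w ∉ {w : Sp n | ‖(ρ : ℝ) • (w : EE n) - x‖ ≤ δ} from hw)]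
  simp_rw [h2]
  rw [lint_nu n _ hmeas2]
  have h4 : ∀ ρ ∈ Ioi (0 : ℝ), ENNReal.ofReal (ρ ^ (n - 1)) *
      (h ρ * sg n {w : Sp n | ‖ρ • (w : EE n) - x‖ ≤ δ}) ≤
      {ρ : ℝ | 0 < ρ ∧ |ρ - ‖x‖| ≤ δ}.indicator (fun ρ =>
        ENNReal.ofReal (2 ^ (n - 1)) * (sg n univ + ENNReal.ofReal C) *
        ENNReal.ofReal (δ ^ (n - 1)) * h ρ) ρ := by
    intro ρ hρ
    have hρ' : 0 < ρ := hρ
    by_cases hab : |ρ - ‖x‖| ≤ δ
    · rw [indicator_of_mem (show ρ ∈ {ρ : ℝ | 0 < ρ ∧ |ρ - ‖x‖| ≤ δ} from ⟨hρ', hab⟩)]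
      calc ENNReal.ofReal (ρ ^ (n - 1)) * (h ρ * sg n {w : Sp n | ‖ρ • (w : EE n) - x‖ ≤ δ})
          = (ENNReal.ofReal (ρ ^ (n - 1)) * sg n {w : Sp n | ‖ρ • (w : EE n) - x‖ ≤ δ}) * h ρ := by
            ring
        _ ≤ _ := mul_le_mul' (cap_bound hC (fun ρ u h1 h2 => (hS ρ u h1 h2).2.2) hδ hρ' x) le_rfl
    · have hem : {w : Sp n | ‖ρ • (w : EE n) - x‖ ≤ δ} = ∅ := by
        rw [eq_empty_iff_forall_notMem]
        intro w hw
        apply hab
        have h5 := abs_norm_sub_norm_le (ρ • (w : EE n)) x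
        rw [norm_smul, norm_sp, mul_one, Real.norm_of_nonneg hρ'.le] at h5
        exact h5.trans hw
      rw [hem, measure_empty, mul_zero, mul_zero]
      exact zero_le
  calc ∫⁻ ρ in Ioi (0 : ℝ), ENNReal.ofReal (ρ ^ (n - 1)) *
        (h ρ * sg n {w : Sp n | ‖ρ • (w : EE n) - x‖ ≤ δ})
      ≤ ∫⁻ ρ in Ioi (0 : ℝ), {ρ : ℝ | 0 < ρ ∧ |ρ - ‖x‖| ≤ δ}.indicator (fun ρ =>
        ENNReal.ofReal (2 ^ (n - 1)) * (sg n univ + ENNReal.ofReal C) *
        ENNReal.ofReal (δ ^ (n - 1)) * h ρ) ρ := setLIntegral_mono' measurableSet_Ioi h4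
    _ ≤ ∫⁻ ρ, {ρ : ℝ | 0 < ρ ∧ |ρ - ‖x‖| ≤ δ}.indicator (fun ρ =>
        ENNReal.ofReal (2 ^ (n - 1)) * (sg n univ + ENNReal.ofReal C) *
        ENNReal.ofReal (δ ^ (n - 1)) * h ρ) ρ := setLIntegral_le_lintegral _ _
    _ = _ := by
        rw [lintegral_indicator hI, lintegral_const_mul _ hh]
        push_cast
        rw [ENNReal.coe_toNNReal hfin, ENNReal.ofReal, ENNReal.ofReal]

end Pool.Agent.H12.BR
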