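import Pool.Agent.H83.AR.Targets2

/-!
Local smoothing with one angular derivative, stage 2: module PI2 (one piece, localized data, slabs
in the last variable).
-/

set_option autoImplicit false

namespace Pool.Agent.H12.BR

open MeasureTheory Set FourierTransform
open Pool.Agent.H83.LS Pool.Agent.H93.AR Pool.Agent.H54.LS Pool.Agent.H14.LS Pool.Agent.H83.AR
open scoped ENNReal NNReal SchwartzMap

/-! ### elementary facts -/

theorem chis_abs_le (s : ℝ) : |chis s| ≤ 1 := by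
  unfold chis
  rw [abs_le]
  constructor <;> linarith [eta0_nonneg (s / 2), eta0_nonneg (4 * s), eta0_le_one (s / 2),
    eta0_le_one (4 * s)]

theorem mj2_le (n : ℕ) (lam Lam M t : ℝ) (ξ : EE (n + 1)) :
    ‖mj2 n lam Lam M t ξ‖ ≤ ‖mj n lam Lam t ξ‖ := by
  unfold mj2
  rw [norm_mul, Complex.norm_real, Real.norm_eq_abs]
  exact mul_le_of_le_one_right (norm_nonneg _) (chis_abs_le _)

theorem mj2_meas (n : ℕ) (lam Lam M : ℝ) :
    Measurable fun q : ℝ × EE (n + 1) => mj2 n lam Lam M q.1 q.2 := by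
  unfold mj2
  apply (mj_meas n lam Lam).mul
  apply Complex.measurable_ofReal.comp
  exact chis_smooth.continuous.measurable.comp (by fun_prop)

theorem mj2_meas' (n : ℕ) (lam Lam M t : ℝ) : Measurable (mj2 n lam Lam M t) := by
  unfold mj2
  apply (mj_meas' n lam Lam t).mul
  apply Complex.measurable_ofReal.comp
  exact chis_smooth.continuous.measurable.comp (by fun_prop)

theorem mj2_int (n : ℕ) {lam : ℝ} (hl : 0 < lam) (Lam M t : ℝ) : Integrable (mj2 n lam Lam M t) :=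
  (mj_int n hl Lam t).norm.mono' (mj2_meas' n lam Lam M t).aestronglyMeasurable
    (ae_of_all _ fun ξ => mj2_le n lam Lam M t ξ)

theorem mj2_one (n : ℕ) (lam Lam M t : ℝ) (ξ : EE (n + 1)) : ‖mj2 n lam Lam M t ξ‖ ≤ 1 :=
  (mj2_le n lam Lam M t ξ).trans ((mj_le n lam Lam t ξ).trans (mT_norm lam t ξ))

theorem BI_nonneg {d : ℕ} {A : ℝ} {f : EE d → ℂ} (h : BI A f) : 0 ≤ A :=
  le_trans (norm_nonneg _) (h.2.2 0)

theorem fourier_add' {d : ℕ} {g h : EE d → ℂ} (hg : Integrable g) (hh : Integrable h)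
    (ξ : EE d) : 𝓕 (fun x => g x + h x) ξ = 𝓕 g ξ + 𝓕 h ξ := by
  have hi : ∀ {u : EE d → ℂ}, Integrable u → Integrable fun y => e (-(inner ℝ y ξ)) * u y := by
    intro u hu
    refine hu.bdd_mul (c := 1) ?_ (ae_of_all _ fun y => (norm_e _).le)
    exact (measurable_e.comp (by fun_prop)).aestronglyMeasurable
  rw [ff_eq, ff_eq, ff_eq, ← integral_add (hi hg) (hi hh)]
  refine integral_congr_ae (ae_of_all _ fun y => ?_)
  simp only
  ring

theorem MM_add' {d : ℕ} {m g h : EE d → ℂ} (hm : Integrable m) (hg : Integrable g)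
    (hh : Integrable h) (x : EE d) : MM m (fun x => g x + h x) x = MM m g x + MM m h x := by
  unfold MM
  rw [← integral_add (sym_int2 hm hg x) (sym_int2 hm hh x)]
  refine integral_congr_ae (ae_of_all _ fun ξ => ?_)
  simp only
  rw [fourier_add' hg hh]
  ring

/-- from a sup bound and an energy bound to an `L^p` bound -/
theorem pow_sup {d : ℕ} {p D : ℝ} (hp : 2 < p) (hD : 0 ≤ D) {S : Set (EE d)}
    {F : ℝ → EE d → ℂ} (hF : ∀ t ∈ Icc (1 : ℝ) 2, ∀ x, ‖F t x‖ ≤ D) :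
    ∫⁻ t in Icc (1 : ℝ) 2, ∫⁻ x in S, ‖F t x‖ₑ ^ p ≤
      ENNReal.ofReal (D ^ (p - 2)) * ∫⁻ t in Icc (1 : ℝ) 2, ∫⁻ x in S, ‖F t x‖ₑ ^ 2 := by
  rw [← lintegral_const_mul' _ _ ENNReal.ofReal_ne_top]
  refine setLIntegral_mono' measurableSet_Icc fun t ht => ?_
  rw [← lintegral_const_mul' _ _ ENNReal.ofReal_ne_top]
  refine lintegral_mono fun x => ?_
  have h1 : ‖F t x‖ₑ ^ p = ‖F t x‖ₑ ^ (p - 2) * ‖F t x‖ₑ ^ 2 := by
    rw [← ENNReal.rpow_natCast, ← ENNReal.rpow_add_of_nonneg _ _ (by linarith) (by norm_num)]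
    congr 1; push_cast; ring
  rw [h1]
  gcongr
  rw [← ENNReal.ofReal_rpow_of_nonneg hD (by linarith)]
  refine ENNReal.rpow_le_rpow ?_ (by linarith)
  rw [← ofReal_norm]
  exact ENNReal.ofReal_le_ofReal (hF t ht x)

theorem sup_pow {n : ℕ} {p K Z A : ℝ} (hK : 0 ≤ K) (hZ : 0 ≤ Z) (hA : 0 ≤ A) :
    (K * Z ^ ((n : ℝ) / 2) * A) ^ (p - 2) =
      K ^ (p - 2) * Z ^ ((n : ℝ) * (p / 2 - 1)) * A ^ (p - 2) := by
  rw [Real.mul_rpow (by positivity) hA, Real.mul_rpow hK (by positivity), ← Real.rpow_mul hZ]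
  congr 3
  ring

/-- the average twice -/
theorem bi_gg (hAM : T_AM) {n : ℕ} (hn : 1 ≤ n) {L A : ℝ} (hL : 1 ≤ L) {f : EE (n + 1) → ℂ}
    (hf : BCd A f) : BI A (AL L (AL L f)) ∧
      ∫⁻ x, ‖AL L (AL L f) x‖ₑ ^ 2 ≤ ∫⁻ x, ‖f x‖ₑ ^ 2 := by
  obtain ⟨am1, am2, am3, am4, -, -⟩ := hAM n L hn hL
  have h1 := am1 f hf.1
  have h2 := am2 f A hf.1 hf.2.1
  refine ⟨⟨am1 _ h1, am4 _ h1 (am4 f hf.1 (bcd_int hf)), am2 _ A h1 h2⟩, ?_⟩
  have h3 := (am3 (AL L f) 2 h1 (by norm_num)).trans (am3 f 2 hf.1 (by norm_num))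
  have h4 : ∀ g : EE (n + 1) → ℂ, ∫⁻ x, ‖g x‖ₑ ^ (2 : ℝ) = ∫⁻ x, ‖g x‖ₑ ^ 2 := by
    intro g
    congr 1; ext x
    rw [← ENNReal.rpow_natCast]
    norm_num
  rwa [h4, h4] at h3

/-- cutoffs in `hor` commute with the average -/
theorem gg_ind (hAM : T_AM) {n : ℕ} (hn : 1 ≤ n) {L : ℝ} (hL : 1 ≤ L) (f : EE (n + 1) → ℂ)
    (S : Set ℝ) (x : EE (n + 1)) : AL L (AL L ({x | hor x ∈ S}.indicator f)) x =
      {x | hor x ∈ S}.indicator (AL L (AL L f)) x := by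
  classical
  obtain ⟨-, -, -, -, am5, -⟩ := hAM n L hn hL
  have h0 : ∀ g : EE (n + 1) → ℂ, {x : EE (n + 1) | hor x ∈ S}.indicator g =
      fun x => (fun (ρ _z : ℝ) => if ρ ∈ S then (1 : ℂ) else 0) (hor x) (x (Fin.last n)) * g x := by
    intro g
    funext y
    by_cases hy : hor y ∈ S
    · rw [indicator_of_mem (show y ∈ {x : EE (n + 1) | hor x ∈ S} from hy)]
      simp only
      rw [if_pos hy, one_mul]
    · rw [indicator_of_notMem (show y ∉ {x : EE (n + 1) | hor x ∈ S} from hy)]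
      simp only
      rw [if_neg hy, zero_mul]
  have h2 : ∀ (g : EE (n + 1) → ℂ) (y : EE (n + 1)), AL L ({x : EE (n + 1) | hor x ∈ S}.indicator g) y
      = {x : EE (n + 1) | hor x ∈ S}.indicator (AL L g) y := by
    intro g y
    rw [h0 g, h0 (AL L g)]
    exact am5 g (fun (ρ _z : ℝ) => if ρ ∈ S then (1 : ℂ) else 0) y
  have h1 : AL L ({x : EE (n + 1) | hor x ∈ S}.indicator f) =
      {x : EE (n + 1) | hor x ∈ S}.indicator (AL L f) := by
    funext y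
    exact h2 f y
  rw [h1]
  exact h2 (AL L f) x

/-! ### energy on slabs -/

theorem en_slab (hTZ : T_TZ) (hPLE : T_PLE) {n : ℕ} (hn : 1 ≤ n) : ∃ C : ℝ≥0,
    ∀ (lam Lam M ε A θ : ℝ) (h : EE (n + 1) → ℂ), 1 ≤ lam → 0 < M → M ≤ 4 * lam → 0 < ε →
    0 ≤ θ → θ ≤ 1 → BI A h →
    ∫⁻ t in Icc (1 : ℝ) 2, ∫⁻ x in {x : EE (n + 1) | |x (Fin.last n)| ≤ ε},
      ‖MM (mj2 n lam Lam M t) h x‖ₑ ^ 2 ≤
      C * ENNReal.ofReal ((ε * lam / M) ^ θ) * ∫⁻ x, ‖h x‖ₑ ^ 2 := by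
  obtain ⟨C, hC⟩ := hTZ n hn
  refine ⟨C + 1, ?_⟩
  intro lam Lam M ε A θ h hl hM hM4 hε hθ hθ1 hh
  have hl0 : 0 < lam := by linarith
  have hb0 : 0 < ε * lam / M := by positivity
  rcases le_total (ε * lam / M) 1 with hb | hb
  · have h1 := hC lam M ε A (fun ξ => ((chi (‖ξ‖ / lam) * chi (hor ξ / Lam) : ℝ) : ℂ)) h hl hM hM4
      hε ?_ ?_ ?_ hh
    · have h2 : ∀ t : ℝ, (fun ξ : EE (n + 1) => e (t * ‖ξ‖) *
          ((chi (‖ξ‖ / lam) * chi (hor ξ / Lam) : ℝ) : ℂ) *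
          ((chis (ξ (Fin.last n) / M) : ℝ) : ℂ)) = mj2 n lam Lam M t := fun t => rfl
      simp_rw [h2] at h1
      refine h1.trans ?_
      gcongr
      · push_cast
        exact le_self_add
      · calc ε * lam / M = (ε * lam / M) ^ (1 : ℝ) := (Real.rpow_one _).symm
          _ ≤ (ε * lam / M) ^ θ := Real.rpow_le_rpow_of_exponent_ge hb0 hb hθ1
    · apply Complex.measurable_ofReal.comp
      apply Measurable.mul
      · exact chi_smooth.continuous.measurable.comp (by fun_prop)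
      · exact chi_smooth.continuous.measurable.comp (hor_cont.measurable.div_const _)
    · intro ξ
      rw [Complex.norm_real, Real.norm_eq_abs, abs_mul]
      exact mul_le_one₀ (chi_abs_le _) (abs_nonneg _) (chi_abs_le _)
    · intro ξ hξ
      have h3 : chi (‖ξ‖ / lam) ≠ 0 := by
        intro h4
        apply hξ
        rw [h4]
        simp
      obtain ⟨h5, h6⟩ := chi_supp h3
      rw [le_div_iff₀ hl0] at h5
      rw [div_le_iff₀ hl0] at h6
      constructor <;> linarith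
  · have h1 : ∀ t : ℝ, ∫⁻ x in {x : EE (n + 1) | |x (Fin.last n)| ≤ ε},
        ‖MM (mj2 n lam Lam M t) h x‖ₑ ^ 2 ≤ ∫⁻ x, ‖h x‖ₑ ^ 2 := by
      intro t
      refine (setLIntegral_le_lintegral _ _).trans ?_
      exact (hPLE (n + 1) (mj2 n lam Lam M t) h (mj2_meas' n lam Lam M t)
        (mj2_one n lam Lam M t) (mj2_int n hl0 Lam M t) hh.2.1 ⟨A, hh.2.2⟩ hh.1).2
    have h2 : (1 : ℝ≥0∞) ≤ ENNReal.ofReal ((ε * lam / M) ^ θ) := by
      rw [← ENNReal.ofReal_one]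
      exact ENNReal.ofReal_le_ofReal (Real.one_le_rpow hb hθ)
    calc ∫⁻ t in Icc (1 : ℝ) 2, ∫⁻ x in {x : EE (n + 1) | |x (Fin.last n)| ≤ ε},
          ‖MM (mj2 n lam Lam M t) h x‖ₑ ^ 2 ≤ ∫⁻ _t in Icc (1 : ℝ) 2, ∫⁻ x, ‖h x‖ₑ ^ 2 :=
          lintegral_mono fun t => h1 t
      _ = ∫⁻ x, ‖h x‖ₑ ^ 2 := by
          rw [setLIntegral_const, Real.volume_Icc]
          norm_num
      _ = 1 * 1 * ∫⁻ x, ‖h x‖ₑ ^ 2 := by rw [one_mul, one_mul]
      _ ≤ _ := by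
          gcongr
          exact_mod_cast (le_add_self : (1 : ℝ≥0) ≤ C + 1)

/-! ### sup bounds -/

theorem sup_gen (hCZ : T_CZ) (hSUI : T_SUI) {n : ℕ} (hn : 2 ≤ n) : ∃ K C : ℝ, 0 ≤ K ∧ 0 ≤ C ∧
    (∀ (lam Lam M t A : ℝ) (h : EE (n + 1) → ℂ), 1 ≤ lam → 1 ≤ Lam → Lam ≤ 4 * lam → 0 < M →
      t ∈ Icc (1 : ℝ) 2 → BI A h → ∀ x,
      ‖MM (mj2 n lam Lam M t) h x‖ ≤ K * (1 + Lam ^ 2 / lam) ^ ((n : ℝ) / 2) * A) ∧
    (∀ (lam Lam M t A δ : ℝ) (h : EE (n + 1) → ℂ), 1 ≤ lam → 1 ≤ Lam → Lam ≤ 4 * lam → 0 < M →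
      t ∈ Icc (1 : ℝ) 2 → BI A h → lam ≤ Lam ^ 2 → 1 / Lam ≤ δ → δ ≤ Lam / lam →
      (∀ x, h x ≠ 0 → hor x ≤ δ) → ∀ x,
      ‖MM (mj2 n lam Lam M t) h x‖ ≤ K * (δ * Lam) ^ ((n : ℝ) / 2) * A) ∧
    (∀ (lam Lam M A δ : ℝ) (h : EE (n + 1) → ℂ), 1 ≤ lam → 1 ≤ Lam → Lam ≤ 4 * lam → 0 < M →
      BI A h → 0 < δ →
      ∫⁻ t in Icc (1 : ℝ) 2, ∫⁻ x in {x : EE (n + 1) | hor x ≤ δ},
        ‖MM (mj2 n lam Lam M t) h x‖ₑ ^ 2 ≤
        ENNReal.ofReal C * ENNReal.ofReal (δ * lam / Lam) * ∫⁻ x, ‖h x‖ₑ ^ 2) := by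
  obtain ⟨C₁, hC₁0, hC₁⟩ := hCZ n (by omega)
  obtain ⟨C₂, hC₂0, s1, s2, s3, -⟩ := hSUI n hn
  refine ⟨C₂ * C₁, C₂ * C₁, by positivity, by positivity, ?_, ?_, ?_⟩
  · intro lam Lam M t A h hl hL hLl hM ht hh x
    obtain ⟨c1, -, -, c4, -⟩ := hC₁ M A h hM hh
    have h1 : MM (mj2 n lam Lam M t) h x = MM (mj n lam Lam t) (cz M h) x :=
      c4 (mj n lam Lam t) x
    rw [h1]
    refine (s1 lam Lam t (C₁ * A) (cz M h) hl hL hLl ht c1 x).trans (le_of_eq ?_)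
    ring
  · intro lam Lam M t A δ h hl hL hLl hM ht hh hlL hδ1 hδ2 hs x
    obtain ⟨c1, -, -, c4, c5, -⟩ := hC₁ M A h hM hh
    have h1 : MM (mj2 n lam Lam M t) h x = MM (mj n lam Lam t) (cz M h) x :=
      c4 (mj n lam Lam t) x
    rw [h1]
    refine (s2 lam Lam t (C₁ * A) δ (cz M h) hl hL hLl ht c1 hlL hδ1 hδ2
      (c5 (Iic δ) hs) x).trans (le_of_eq ?_)
    ring
  · intro lam Lam M A δ h hl hL hLl hM hh hδ
    obtain ⟨c1, c2, -, c4, -⟩ := hC₁ M A h hM hh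
    have h1 : ∀ (t : ℝ) (x : EE (n + 1)), MM (mj2 n lam Lam M t) h x =
        MM (mj n lam Lam t) (cz M h) x := fun t x => c4 (mj n lam Lam t) x
    simp_rw [h1]
    refine (s3 lam Lam (C₁ * A) δ (cz M h) hl hL hLl c1 hδ).trans ?_
    calc ENNReal.ofReal C₂ * ENNReal.ofReal (δ * lam / Lam) * ∫⁻ x, ‖cz M h x‖ₑ ^ 2
        ≤ ENNReal.ofReal C₂ * ENNReal.ofReal (δ * lam / Lam) *
          (ENNReal.ofReal C₁ * ∫⁻ x, ‖h x‖ₑ ^ 2) := by gcongr
      _ = _ := by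
          rw [ENNReal.ofReal_mul hC₂0]
          ring

/-! ### the piece -/

theorem ra {Kp Zs L2 le bg Ap : ℝ} (hK : 0 ≤ Kp) (hZ2 : Zs ≤ 2 * L2)
    (hL : 0 ≤ L2) (hle : 1 ≤ le) (hb : 0 ≤ bg) (hA : 0 ≤ Ap) :
    Kp * Zs * Ap * bg ≤ 2 * Kp * (L2 * le * bg * Ap) := by
  have h1 : 0 ≤ Kp * Ap * bg := by positivity
  have h2 : Kp * Zs * Ap * bg ≤ Kp * Ap * bg * (2 * L2) := by
    calc Kp * Zs * Ap * bg = Kp * Ap * bg * Zs := by ring
      _ ≤ _ := mul_le_mul_of_nonneg_left hZ2 h1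
  have h3 : Kp * Ap * bg * (2 * L2) * 1 ≤ Kp * Ap * bg * (2 * L2) * le :=
    mul_le_mul_of_nonneg_left hle (by positivity)
  calc Kp * Zs * Ap * bg ≤ Kp * Ap * bg * (2 * L2) := h2
    _ = Kp * Ap * bg * (2 * L2) * 1 := by ring
    _ ≤ Kp * Ap * bg * (2 * L2) * le := h3
    _ = _ := by ring

theorem rg {X L2 s γ : ℝ} (hL : 1 ≤ L2) (hX : L2 ≤ X) (hs1 : s ≤ 1)
    (hsγ : s ≤ 1 - γ) : (2 * X) ^ s * (L2 / X) ^ (1 - γ) ≤ 2 * L2 := by
  have hX0 : 0 < X := by linarith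
  have hu0 : 0 < L2 / X := by positivity
  have hu1 : L2 / X ≤ 1 := by rw [div_le_one hX0]; exact hX
  have h1 : (L2 / X) ^ (1 - γ) ≤ (L2 / X) ^ s := Real.rpow_le_rpow_of_exponent_ge hu0 hu1 hsγ
  calc (2 * X) ^ s * (L2 / X) ^ (1 - γ) ≤ (2 * X) ^ s * (L2 / X) ^ s :=
        mul_le_mul_of_nonneg_left h1 (by positivity)
    _ = (2 * L2) ^ s := by
        rw [← Real.mul_rpow (by positivity) hu0.le]
        congr 1
        field_simp
    _ ≤ (2 * L2) ^ (1 : ℝ) := Real.rpow_le_rpow_of_exponent_le (by linarith) hs1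
    _ = 2 * L2 := Real.rpow_one _

theorem e1 {u b γ : ℝ} {Q C' : ℝ≥0} {E Y : ℝ≥0∞} (hu : 0 < u) (hu1 : u ≤ 1) (hb : 0 < b)
    (hγ : 0 ≤ γ) (hγ1 : γ ≤ 1) (h1 : E ≤ Q * ENNReal.ofReal (b ^ (1 : ℝ)) * Y)
    (h2 : E ≤ C' * ENNReal.ofReal u * Y) :
    E ≤ ((Q + C' : ℝ≥0) : ℝ≥0∞) * ENNReal.ofReal (u ^ (1 - γ) * b ^ γ) * Y := by
  have hpow : ∀ z : ℝ, 0 < z → z ^ (1 - γ) * z ^ γ = z := by
    intro z hz
    rw [← Real.rpow_add hz]
    have : 1 - γ + γ = 1 := by ring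
    rw [this, Real.rpow_one]
  rcases le_total b u with hbu | hub
  · refine h1.trans ?_
    gcongr
    · exact le_self_add
    · rw [Real.rpow_one]
      calc b = b ^ (1 - γ) * b ^ γ := (hpow b hb).symm
        _ ≤ u ^ (1 - γ) * b ^ γ := by
            refine mul_le_mul_of_nonneg_right ?_ (by positivity)
            exact Real.rpow_le_rpow hb.le hbu (by linarith)
  · refine h2.trans ?_
    gcongr
    · exact le_add_self
    · calc u = u ^ (1 - γ) * u ^ γ := (hpow u hu).symm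
        _ ≤ u ^ (1 - γ) * b ^ γ := by
            refine mul_le_mul_of_nonneg_left ?_ (by positivity)
            exact Real.rpow_le_rpow hu.le hub hγ

theorem combine {D B c W : ℝ} {Q T : ℝ≥0} {E Y : ℝ≥0∞} (hD : 0 ≤ D)
    (hE : E ≤ Q * ENNReal.ofReal B * Y) (h : D * B ≤ c * W) (hc : 0 ≤ c)
    (hT : T = Real.toNNReal c) :
    ENNReal.ofReal D * E ≤ ((Q * T : ℝ≥0) : ℝ≥0∞) * ENNReal.ofReal W * Y := by
  calc ENNReal.ofReal D * E ≤ ENNReal.ofReal D * (Q * ENNReal.ofReal B * Y) := by gcongr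
    _ = Q * ENNReal.ofReal (D * B) * Y := by
        rw [ENNReal.ofReal_mul hD]
        ring
    _ ≤ Q * ENNReal.ofReal (c * W) * Y := by gcongr
    _ = _ := by
        rw [ENNReal.ofReal_mul hc, hT]
        push_cast
        rw [ENNReal.ofReal]
        ring

theorem split_set {d : ℕ} {p : ℝ} {S S₁ S₂ : Set (EE d)} (hS : S ⊆ S₁ ∪ S₂)
    {F : ℝ → EE d → ℂ} (hF : Measurable fun q : ℝ × EE d => ‖F q.1 q.2‖ₑ ^ p) :
    ∫⁻ t in Icc (1 : ℝ) 2, ∫⁻ x in S, ‖F t x‖ₑ ^ p ≤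
      (∫⁻ t in Icc (1 : ℝ) 2, ∫⁻ x in S₁, ‖F t x‖ₑ ^ p) +
        ∫⁻ t in Icc (1 : ℝ) 2, ∫⁻ x in S₂, ‖F t x‖ₑ ^ p := by
  have mt : Measurable fun t : ℝ => ∫⁻ x in S₁, ‖F t x‖ₑ ^ p :=
    Measurable.lintegral_prod_right' hF
  rw [← lintegral_add_left mt]
  exact lintegral_mono fun t => (lintegral_mono_set hS).trans (lintegral_union_le _ _ _)

theorem split_sum {d : ℕ} {p : ℝ} (hp : 1 ≤ p) {S : Set (EE d)}
    {F G H : ℝ → EE d → ℂ} (hF : Measurable fun q : ℝ × EE d => ‖F q.1 q.2‖ₑ ^ p)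
    (hH : ∀ t x, H t x = F t x + G t x) :
    ∫⁻ t in Icc (1 : ℝ) 2, ∫⁻ x in S, ‖H t x‖ₑ ^ p ≤ ENNReal.ofReal (2 ^ (p - 1)) *
      ((∫⁻ t in Icc (1 : ℝ) 2, ∫⁻ x in S, ‖F t x‖ₑ ^ p) +
        ∫⁻ t in Icc (1 : ℝ) 2, ∫⁻ x in S, ‖G t x‖ₑ ^ p) := by
  have mt : Measurable fun t : ℝ => ∫⁻ x in S, ‖F t x‖ₑ ^ p :=
    Measurable.lintegral_prod_right' hF
  rw [← lintegral_add_left mt, ← lintegral_const_mul' _ _ ENNReal.ofReal_ne_top]
  refine lintegral_mono fun t => ?_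
  have mx : Measurable fun x : EE d => ‖F t x‖ₑ ^ p :=
    hF.comp (measurable_const.prodMk measurable_id)
  rw [← lintegral_add_left mx, ← lintegral_const_mul' _ _ ENNReal.ofReal_ne_top]
  refine lintegral_mono fun x => ?_
  have h2 : ENNReal.ofReal (2 ^ (p - 1)) = (2 : ℝ≥0∞) ^ (p - 1) := by
    rw [← ENNReal.ofReal_rpow_of_pos (by norm_num)]
    norm_num
  rw [h2, hH t x]
  refine le_trans ?_ (ENNReal.rpow_add_le_mul_rpow_add_rpow _ _ hp)
  exact ENNReal.rpow_le_rpow (enorm_add_le _ _) (by linarith)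

theorem hor_meas {n : ℕ} : Measurable (hor : EE (n + 1) → ℝ) := hor_cont.measurable

theorem pf_pi2 (hPG : T_PG2) (hSUI : T_SUI) (hTZ : T_TZ) (hCZ : T_CZ) (hAM : T_AM)
    (hPLE : T_PLE) : T_PI2 := by
  intro n p γ η hn hp hγ hs hη
  have hn1 : 1 ≤ n := by omega
  obtain ⟨Q, hQ⟩ := en_slab hTZ hPLE hn1
  obtain ⟨K, C, hK, hC0, g1, g2, g3⟩ := sup_gen hCZ hSUI hn
  obtain ⟨P, hP⟩ := hPG n p γ η hn hp hγ hs hη
  obtain ⟨s, hsdef⟩ : ∃ s : ℝ, s = (n : ℝ) * (p / 2 - 1) := ⟨_, rfl⟩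
  rw [← hsdef] at hs
  have hn0 : (0 : ℝ) < n := by exact_mod_cast (by omega : 0 < n)
  have hs0 : 0 < s := by rw [hsdef]; exact mul_pos hn0 (by linarith)
  have hγ1 : γ ≤ 1 := by linarith
  have hs1 : s ≤ 1 := by linarith
  have hsγ : s ≤ 1 - γ := by linarith
  obtain ⟨T, hT⟩ : ∃ T : ℝ≥0, T = Real.toNNReal (2 * K ^ (p - 2)) := ⟨_, rfl⟩
  obtain ⟨C', hC'⟩ : ∃ C' : ℝ≥0, C' = Real.toNNReal C := ⟨_, rfl⟩
  have hKp : 0 ≤ K ^ (p - 2) := by positivity
  refine ⟨Real.toNNReal (2 ^ (p - 1)) * (Q * T + ((Q + C') * T + P)) + Q * T + P, ?_⟩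
  intro lam Lam M L A ε f hl hLam hLl hM hM4 hL hf hε
  have hl0 : 0 < lam := by linarith
  have hLam0 : 0 < Lam := by linarith
  have hM0 : 0 < M := by linarith
  have hε0 : 0 < ε := lt_of_lt_of_le (by positivity) hε
  have hA := bcd_nonneg hf
  obtain ⟨b, hb⟩ : ∃ b : ℝ, b = ε * lam / M := ⟨_, rfl⟩
  have hb0 : 0 < b := by rw [hb]; positivity
  rw [← hb]
  obtain ⟨W, hW⟩ : ∃ W : ℝ, W = L ^ 2 * lam ^ η * b ^ γ * A ^ (p - 2) := ⟨_, rfl⟩
  rw [← hW]
  have hlη : 1 ≤ lam ^ η := Real.one_le_rpow hl hη.le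
  have hL2 : 1 ≤ L ^ 2 := one_le_pow₀ hL
  have hAp : 0 ≤ A ^ (p - 2) := by positivity
  have hbγ : 0 ≤ b ^ γ := by positivity
  have hPW : ENNReal.ofReal (lam ^ η * b ^ γ * A ^ (p - 2)) ≤ ENNReal.ofReal W := by
    apply ENNReal.ofReal_le_ofReal
    rw [hW]
    have h1 : 0 ≤ lam ^ η * b ^ γ * A ^ (p - 2) := by positivity
    calc lam ^ η * b ^ γ * A ^ (p - 2) = 1 * (lam ^ η * b ^ γ * A ^ (p - 2)) := (one_mul _).symm
      _ ≤ L ^ 2 * (lam ^ η * b ^ γ * A ^ (p - 2)) := mul_le_mul_of_nonneg_right hL2 h1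
      _ = _ := by ring
  -- bounds from sup bounds
  have hsup : ∀ (h : EE (n + 1) → ℂ) (Z : ℝ), BI A h → 0 ≤ Z → Z ^ s ≤ 2 * L ^ 2 →
      (∀ t ∈ Icc (1 : ℝ) 2, ∀ x, ‖MM (mj2 n lam Lam M t) h x‖ ≤ K * Z ^ ((n : ℝ) / 2) * A) →
      ∫⁻ t in Icc (1 : ℝ) 2, ∫⁻ x in {x : EE (n + 1) | |x (Fin.last n)| ≤ ε},
        ‖MM (mj2 n lam Lam M t) h x‖ₑ ^ p ≤
        ((Q * T : ℝ≥0) : ℝ≥0∞) * ENNReal.ofReal W * ∫⁻ x, ‖h x‖ₑ ^ 2 := by
    intro h Z hh hZ hZs hsu
    have hD : 0 ≤ K * Z ^ ((n : ℝ) / 2) * A := by positivity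
    refine (pow_sup hp hD hsu).trans ?_
    refine combine (c := 2 * K ^ (p - 2)) (B := b ^ γ) (by positivity) ?_ ?_ (by positivity) hT
    · have := hQ lam Lam M ε A γ h hl hM0 hM4 hε0 hγ hγ1 hh
      rwa [← hb] at this
    · rw [sup_pow hK hZ hA, ← hsdef, hW]
      exact ra hKp hZs (by positivity) hlη hbγ hAp
  obtain ⟨G, hG⟩ : ∃ G : EE (n + 1) → ℂ, G = AL L (AL L f) := ⟨_, rfl⟩
  obtain ⟨X, hX⟩ : ∃ X : ℝ, X = Lam ^ 2 / lam := ⟨_, rfl⟩
  have hX0 : 0 < X := by rw [hX]; positivity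
  obtain ⟨bi, ene⟩ := bi_gg hAM hn1 hL hf
  rw [← hG] at bi ene
  simp_rw [← hG]
  rcases le_total X (L ^ 2) with hXL | hXL
  · -- small pieces
    have h1 : ∫⁻ t in Icc (1 : ℝ) 2, ∫⁻ x in {x : EE (n + 1) | |x (Fin.last n)| ≤ ε},
        ‖MM (mj2 n lam Lam M t) G x‖ₑ ^ p ≤
        ((Real.toNNReal (2 ^ (p - 1)) * (Q * T + ((Q + C') * T + P)) + Q * T + P : ℝ≥0) : ℝ≥0∞) *
          ENNReal.ofReal W * ∫⁻ x, ‖f x‖ₑ ^ 2 := by
      refine (hsup G (2 * L ^ 2) bi (by positivity) ?_ ?_).trans ?_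
      · calc (2 * L ^ 2) ^ s ≤ (2 * L ^ 2) ^ (1 : ℝ) :=
              Real.rpow_le_rpow_of_exponent_le (by linarith) hs1
          _ = 2 * L ^ 2 := Real.rpow_one _
      · intro t ht x
        refine (g1 lam Lam M t A G hl hLam hLl hM0 ht bi x).trans ?_
        rw [← hX]
        gcongr
        linarith
      · gcongr
        have h2 : (Q * T : ℝ≥0) ≤
            Real.toNNReal (2 ^ (p - 1)) * (Q * T + ((Q + C') * T + P)) + Q * T + P := by
          calc (Q * T : ℝ≥0) ≤ Real.toNNReal (2 ^ (p - 1)) * (Q * T + ((Q + C') * T + P)) + Q * T :=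
                le_add_self
            _ ≤ _ := le_self_add
        exact h2
    refine ⟨fun _ => h1, fun i _ _ => le_trans ?_ h1⟩
    refine lintegral_mono fun t => lintegral_mono_set ?_
    intro x hx
    exact hx.2
  · -- large pieces
    have hL8 : L ^ 2 ≤ 8 * Lam := by
      refine hXL.trans ?_
      rw [hX, div_le_iff₀ hl0]
      nlinarith
    have hlL : lam ≤ Lam ^ 2 := by
      have h1 : 1 ≤ X := hL2.trans hXL
      rw [hX, le_div_iff₀ hl0] at h1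
      linarith
    refine ⟨fun hf24 => ?_, fun i hi hfi => ?_⟩
    · -- near
      obtain ⟨ρ, hρ⟩ : ∃ ρ : ℝ, ρ = L ^ 2 / Lam := ⟨_, rfl⟩
      have hρ0 : 0 < ρ := by rw [hρ]; positivity
      obtain ⟨fb, hfb⟩ : ∃ fb : EE (n + 1) → ℂ,
        fb = {x : EE (n + 1) | hor x ∈ Iio ρ}.indicator f := ⟨_, rfl⟩
      obtain ⟨fg, hfg⟩ : ∃ fg : EE (n + 1) → ℂ,
        fg = {x : EE (n + 1) | hor x ∈ Ici ρ}.indicator f := ⟨_, rfl⟩
      have mb : MeasurableSet {x : EE (n + 1) | hor x ∈ Iio ρ} := hor_meas measurableSet_Iio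
      have mg : MeasurableSet {x : EE (n + 1) | hor x ∈ Ici ρ} := hor_meas measurableSet_Ici
      have bfb : BCd A fb := by rw [hfb]; exact bcd_ind hf mb
      have bfg : BCd A fg := by rw [hfg]; exact bcd_ind hf mg
      obtain ⟨bib, eneb⟩ := bi_gg hAM hn1 hL bfb
      obtain ⟨big, eneg⟩ := bi_gg hAM hn1 hL bfg
      have hcb := gg_ind hAM hn1 hL f (Iio ρ)
      have hcg := gg_ind hAM hn1 hL f (Ici ρ)
      rw [← hfb, ← hG] at hcb
      rw [← hfg, ← hG] at hcg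
      obtain ⟨Gb, hGb⟩ : ∃ Gb : EE (n + 1) → ℂ, Gb = AL L (AL L fb) := ⟨_, rfl⟩
      obtain ⟨Gg, hGg⟩ : ∃ Gg : EE (n + 1) → ℂ, Gg = AL L (AL L fg) := ⟨_, rfl⟩
      rw [← hGb] at bib eneb hcb
      rw [← hGg] at big eneg hcg
      have hsum : G = fun x => Gb x + Gg x := by
        funext x
        rw [hcb, hcg]
        by_cases hx : hor x < ρ
        · rw [indicator_of_mem (show x ∈ {x : EE (n + 1) | hor x ∈ Iio ρ} from hx),
            indicator_of_notMem (show x ∉ {x : EE (n + 1) | hor x ∈ Ici ρ} from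
              fun h => absurd hx (not_lt.2 h)), add_zero]
        · rw [indicator_of_notMem (show x ∉ {x : EE (n + 1) | hor x ∈ Iio ρ} from hx),
            indicator_of_mem (show x ∈ {x : EE (n + 1) | hor x ∈ Ici ρ} from not_lt.1 hx),
            zero_add]
      have hyb : ∫⁻ x, ‖fb x‖ₑ ^ 2 ≤ ∫⁻ x, ‖f x‖ₑ ^ 2 := by
        refine lintegral_mono fun x => ?_
        rw [hfb]
        gcongr
        exact enorm_indicator_le_enorm_self _ _
      have hyg : ∫⁻ x, ‖fg x‖ₑ ^ 2 ≤ ∫⁻ x, ‖f x‖ₑ ^ 2 := by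
        refine lintegral_mono fun x => ?_
        rw [hfg]
        gcongr
        exact enorm_indicator_le_enorm_self _ _
      -- the part near the axis
      have hB : ∫⁻ t in Icc (1 : ℝ) 2, ∫⁻ x in {x : EE (n + 1) | |x (Fin.last n)| ≤ ε},
          ‖MM (mj2 n lam Lam M t) Gb x‖ₑ ^ p ≤
          ((Q * T : ℝ≥0) : ℝ≥0∞) * ENNReal.ofReal W * ∫⁻ x, ‖f x‖ₑ ^ 2 := by
        refine (hsup Gb (L ^ 2) bib (by positivity) ?_ ?_).trans ?_
        · calc (L ^ 2) ^ s ≤ (L ^ 2) ^ (1 : ℝ) := Real.rpow_le_rpow_of_exponent_le hL2 hs1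
            _ = L ^ 2 := Real.rpow_one _
            _ ≤ 2 * L ^ 2 := by linarith
        · intro t ht x
          have h1 := g2 lam Lam M t A ρ Gb hl hLam hLl hM0 ht bib hlL ?_ ?_ ?_ x
          · have h2 : ρ * Lam = L ^ 2 := by rw [hρ]; field_simp
            rwa [h2] at h1
          · rw [hρ]
            gcongr
          · rw [hρ, div_le_div_iff₀ hLam0 hl0]
            have h3 := hXL
            rw [hX, le_div_iff₀ hl0] at h3
            nlinarith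
          · intro y hy
            by_contra h4
            push Not at h4
            apply hy
            rw [hcb]
            exact indicator_of_notMem (s := {x : EE (n + 1) | hor x ∈ Iio ρ}) (f := G)
              (fun h5 => absurd (show hor y < ρ from h5) (not_lt.2 h4.le))
        · exact mul_le_mul' le_rfl (eneb.trans hyb)
      -- the part away from the axis, near the axis
      have hG1 : ∫⁻ t in Icc (1 : ℝ) 2, ∫⁻ x in {x : EE (n + 1) | hor x ≤ ρ ∧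
          |x (Fin.last n)| ≤ ε}, ‖MM (mj2 n lam Lam M t) Gg x‖ₑ ^ p ≤
          (((Q + C') * T : ℝ≥0) : ℝ≥0∞) * ENNReal.ofReal W * ∫⁻ x, ‖f x‖ₑ ^ 2 := by
        have hD : 0 ≤ K * (2 * X) ^ ((n : ℝ) / 2) * A := by positivity
        have hu : L ^ 2 / X = ρ * lam / Lam := by
          rw [hX, hρ]
          field_simp
        have hu0 : 0 < L ^ 2 / X := by positivity
        refine (pow_sup hp hD (fun t ht x => ?_)).trans ?_
        · refine (g1 lam Lam M t A Gg hl hLam hLl hM0 ht big x).trans ?_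
          rw [← hX]
          gcongr
          linarith
        · refine (combine (c := 2 * K ^ (p - 2)) (B := (L ^ 2 / X) ^ (1 - γ) * b ^ γ)
            (Q := Q + C') (Y := ∫⁻ x, ‖Gg x‖ₑ ^ 2) (W := W) (T := T)
            (by positivity) ?_ ?_ (by positivity) hT).trans ?_
          · refine e1 hu0 (by rw [div_le_one hX0]; exact hXL) hb0 hγ hγ1 ?_ ?_
            · have h1 := hQ lam Lam M ε A 1 Gg hl hM0 hM4 hε0 zero_le_one le_rfl big
              rw [← hb] at h1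
              refine le_trans ?_ h1
              refine lintegral_mono fun t => lintegral_mono_set ?_
              intro x hx
              exact hx.2
            · have h1 := g3 lam Lam M A ρ Gg hl hLam hLl hM0 big hρ0
              rw [← hu] at h1
              refine le_trans (le_trans ?_ h1) (le_of_eq ?_)
              · refine lintegral_mono fun t => lintegral_mono_set ?_
                intro x hx
                exact hx.1
              · rw [hC']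
                rfl
          · rw [sup_pow hK (by positivity) hA, ← hsdef, hW]
            have h1 := ra (Kp := K ^ (p - 2)) (Zs := (2 * X) ^ s * (L ^ 2 / X) ^ (1 - γ))
              (L2 := L ^ 2) (le := lam ^ η) (bg := b ^ γ) (Ap := A ^ (p - 2)) hKp
              (rg hL2 hXL hs1 hsγ) (by positivity) hlη hbγ hAp
            refine le_trans (le_of_eq ?_) h1
            ring
          · exact mul_le_mul' le_rfl (eneg.trans hyg)
      -- the part away from the axis, away from the axis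
      have hG2 : ∫⁻ t in Icc (1 : ℝ) 2, ∫⁻ x in {x : EE (n + 1) | L ^ 2 ≤ Lam * hor x ∧
          |x (Fin.last n)| ≤ ε}, ‖MM (mj2 n lam Lam M t) Gg x‖ₑ ^ p ≤
          (P : ℝ≥0∞) * ENNReal.ofReal W * ∫⁻ x, ‖f x‖ₑ ^ 2 := by
        have h1 := (hP lam Lam M L A ε fg hl hLam hLl hM hM4 hL hL8 bfg hε).1 ?_
        · rw [← hGg, ← hb] at h1
          refine h1.trans ?_
          gcongr
        · intro x hx
          have h2 : x ∈ {x : EE (n + 1) | hor x ∈ Ici ρ} := by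
            by_contra h3
            apply hx
            rw [hfg]
            exact indicator_of_notMem h3 _
          have h3 : f x ≠ 0 := by
            intro h4
            apply hx
            rw [hfg, indicator_of_mem h2, h4]
          refine ⟨?_, hf24 x h3⟩
          have h4 : ρ ≤ hor x := h2
          rw [hρ, div_le_iff₀ hLam0] at h4
          linarith
      -- sum
      have mmeas : ∀ (h : EE (n + 1) → ℂ), Integrable h →
          Measurable fun q : ℝ × EE (n + 1) => ‖MM (mj2 n lam Lam M q.1) h q.2‖ₑ ^ p := by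
        intro h hh
        exact (MM_meas (m := fun t => mj2 n lam Lam M t) (mj2_meas n lam Lam M)
          (fourier_meas' hh)).enorm.pow_const _
      have hGsplit : ∫⁻ t in Icc (1 : ℝ) 2, ∫⁻ x in {x : EE (n + 1) | |x (Fin.last n)| ≤ ε},
          ‖MM (mj2 n lam Lam M t) Gg x‖ₑ ^ p ≤
          (((Q + C') * T + P : ℝ≥0) : ℝ≥0∞) * ENNReal.ofReal W * ∫⁻ x, ‖f x‖ₑ ^ 2 := by
        have hset : {x : EE (n + 1) | |x (Fin.last n)| ≤ ε} ⊆
            {x : EE (n + 1) | hor x ≤ ρ ∧ |x (Fin.last n)| ≤ ε} ∪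
            {x : EE (n + 1) | L ^ 2 ≤ Lam * hor x ∧ |x (Fin.last n)| ≤ ε} := by
          intro x hx
          rcases le_total (hor x) ρ with h1 | h1
          · exact Or.inl ⟨h1, hx⟩
          · refine Or.inr ⟨?_, hx⟩
            rw [hρ, div_le_iff₀ hLam0] at h1
            linarith
        refine (split_set hset (mmeas Gg big.2.1)).trans ((add_le_add hG1 hG2).trans
          (le_of_eq ?_))
        push_cast
        ring
      refine (split_sum (F := fun t => MM (mj2 n lam Lam M t) Gb)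
        (G := fun t => MM (mj2 n lam Lam M t) Gg) (by linarith) (mmeas Gb bib.2.1)
        (fun t x => ?_)).trans ?_
      · rw [hsum]
        exact MM_add' (mj2_int n hl0 Lam M t) bib.2.1 big.2.1 x
      · refine (mul_le_mul' le_rfl (add_le_add hB hGsplit)).trans ?_
        refine le_trans (le_of_eq (?_ : _ = ((Real.toNNReal (2 ^ (p - 1)) *
          (Q * T + ((Q + C') * T + P)) : ℝ≥0) : ℝ≥0∞) * ENNReal.ofReal W * ∫⁻ x, ‖f x‖ₑ ^ 2)) ?_
        · push_cast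
          rw [ENNReal.ofReal]
          ring
        · refine mul_le_mul' (mul_le_mul' ?_ le_rfl) le_rfl
          have h3 : Real.toNNReal (2 ^ (p - 1)) * (Q * T + ((Q + C') * T + P)) ≤
              Real.toNNReal (2 ^ (p - 1)) * (Q * T + ((Q + C') * T + P)) + Q * T + P := by
            rw [add_assoc]
            exact le_self_add
          exact_mod_cast h3
    · -- far
      have h1 := (hP lam Lam M L A ε f hl hLam hLl hM hM4 hL hL8 hf hε).2 i hi hfi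
      rw [← hG, ← hb] at h1
      refine h1.trans ?_
      gcongr
      exact le_add_self

end Pool.Agent.H12.BR
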