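import Pool.Agent.H83.AR.Targets3
import Pool.Agent.H33.AR.RB

/-!
Local smoothing with one angular derivative, stage 2: module RBm (the multiplier of `ℝ^(a+b)` in
polar coordinates of the second block).
-/

set_option autoImplicit false

namespace Pool.Agent.H12.BR

open MeasureTheory Set FourierTransform
open Pool.Agent.H83.LS Pool.Agent.H93.AR Pool.Agent.H54.LS Pool.Agent.H14.LS Pool.Agent.H83.AR
open Pool.Agent.H33.AR
open scoped ENNReal NNReal SchwartzMap

/-- the half space -/
def HS (a : ℕ) : Set (EE (a + 1)) := {ζ : EE (a + 1) | 0 < ζ (Fin.last a)}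

theorem last_meas (a : ℕ) : Measurable fun ζ : EE (a + 1) => ζ (Fin.last a) := by fun_prop

theorem HS_meas (a : ℕ) : MeasurableSet (HS a) :=
  measurableSet_lt measurable_const (last_meas a)

/-- the half space in product coordinates -/
def HQ (a : ℕ) : Set (ℝ × EE a) := {p : ℝ × EE a | 0 < p.1}

theorem HQ_meas (a : ℕ) : MeasurableSet (HQ a) := measurableSet_lt measurable_const measurable_fst

theorem mp_halfm (a b : ℕ) : MeasurePreserving (fun q : Ioi (0 : ℝ) × EE a => ((q.1 : ℝ), q.2))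
    ((nu b).prod volume)
    ((volume.restrict (HQ a)).withDensity (fun p => ENNReal.ofReal (p.1 ^ (b - 1)))) := by
  have h1 : MeasurePreserving (Prod.map (Subtype.val : Ioi (0 : ℝ) → ℝ) (id : EE a → EE a))
      ((nu b).prod volume) (((volume.restrict (Ioi 0)).withDensity
        (fun x => ENNReal.ofReal (x ^ (b - 1)))).prod volume) :=
    (mp_nu b).prod (MeasurePreserving.id volume)
  have h2 : (((volume.restrict (Ioi 0)).withDensity
        (fun x => ENNReal.ofReal (x ^ (b - 1)))).prod (volume : Measure (EE a))) =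
      ((volume.restrict (HQ a)).withDensity (fun p => ENNReal.ofReal (p.1 ^ (b - 1)))) := by
    rw [prod_withDensity_left (by fun_prop)]
    congr 1
    have h3 : HQ a = Ioi (0 : ℝ) ×ˢ (univ : Set (EE a)) := by
      ext p
      simp [HQ]
    rw [h3, Measure.volume_eq_prod, ← Measure.prod_restrict, Measure.restrict_univ]
  rw [h2] at h1
  exact h1

theorem mp_oj (a : ℕ) : MeasurePreserving (fun p : ℝ × EE a => jo p.2 p.1)
    (volume.prod volume) volume :=
  (mp_jo a).comp Measure.measurePreserving_swap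

/-- integrals over the half space -/
theorem int_halfm (a b : ℕ) (K : EE (a + 1) → ℂ) (hK : Measurable K) :
    ∫ q : Ioi (0 : ℝ) × EE a, K (jo q.2 (q.1 : ℝ)) ∂((nu b).prod volume) =
      ∫ ζ in HS a, ((ζ (Fin.last a) ^ (b - 1) : ℝ) : ℂ) * K ζ := by
  have mo : Measurable fun p : ℝ × EE a => jo p.2 p.1 := (mp_oj a).measurable
  have h1 := integral_mp (mp_halfm a b) (g := fun p : ℝ × EE a => K (jo p.2 p.1))
    (hK.comp mo).aestronglyMeasurable
  simp only at h1
  rw [h1, integral_withDensity_eq_integral_toReal_smul₀ (by fun_prop)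
      (ae_of_all _ fun _ => ENNReal.ofReal_lt_top)]
  have h2 : ∫ p in HQ a, (ENNReal.ofReal (p.1 ^ (b - 1))).toReal • K (jo p.2 p.1) =
      ∫ p in HQ a, (fun ζ : EE (a + 1) => ((ζ (Fin.last a) ^ (b - 1) : ℝ) : ℂ) * K ζ)
        (jo p.2 p.1) := by
    refine setIntegral_congr_fun (HQ_meas a) fun p hp => ?_
    have hp' : 0 < p.1 := hp
    simp only
    rw [ENNReal.toReal_ofReal (by positivity), Complex.real_smul, jo_last]
  have hGm : Measurable fun ζ : EE (a + 1) => ((ζ (Fin.last a) ^ (b - 1) : ℝ) : ℂ) * K ζ :=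
    (Complex.measurable_ofReal.comp ((last_meas a).pow_const _)).mul hK
  have h3 : ∫ p : ℝ × EE a, ((HS a).indicator
        (fun ζ : EE (a + 1) => ((ζ (Fin.last a) ^ (b - 1) : ℝ) : ℂ) * K ζ)) (jo p.2 p.1)
        ∂(volume.prod volume) =
      ∫ ζ, ((HS a).indicator
        (fun ζ : EE (a + 1) => ((ζ (Fin.last a) ^ (b - 1) : ℝ) : ℂ) * K ζ)) ζ :=
    integral_mp (mp_oj a) (hGm.indicator (HS_meas a)).aestronglyMeasurable
  rw [h2, ← integral_indicator (HQ_meas a), ← integral_indicator (HS_meas a), ← h3,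
    Measure.volume_eq_prod]
  refine integral_congr_ae (ae_of_all _ fun p => ?_)
  simp only
  by_cases hp : p ∈ HQ a
  · have hp2 : jo p.2 p.1 ∈ HS a := by
      show 0 < (jo p.2 p.1) (Fin.last a)
      rw [jo_last]
      exact hp
    rw [indicator_of_mem hp, indicator_of_mem hp2]
  · have hp2 : jo p.2 p.1 ∉ HS a := by
      intro h
      apply hp
      have h' : 0 < (jo p.2 p.1) (Fin.last a) := h
      rw [jo_last] at h'
      exact h'
    rw [indicator_of_notMem hp, indicator_of_notMem hp2]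

theorem sfin (a b : ℕ) : SFinite ((sg b).prod ((nu b).prod (volume : Measure (EE a)))) := by
  have h1 : SFinite ((nu b).prod (volume : Measure (EE a))) := inferInstance
  have h2 : SFinite (sg b) := inferInstance
  exact Measure.prod.instSFinite

/-- the symbol of the piece in polar coordinates -/
noncomputable def mcm (a : ℕ) (lam Lam t : ℝ) (ζ : EE (a + 1)) : ℂ :=
  e (t * ‖ζ‖) * ((chi (‖ζ‖ / lam) * chi (ζ (Fin.last a) / Lam) : ℝ) : ℂ)

theorem mcm_meas (a : ℕ) (lam Lam t : ℝ) : Measurable (mcm a lam Lam t) := by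
  unfold mcm
  apply Measurable.mul
  · exact measurable_e.comp (by fun_prop)
  · apply Complex.measurable_ofReal.comp
    apply Measurable.mul
    · exact chi_smooth.continuous.measurable.comp (by fun_prop)
    · exact chi_smooth.continuous.measurable.comp ((last_meas a).div_const _)

theorem m2_int (hJM : T_JM) (a b : ℕ) {lam : ℝ} (hl : 0 < lam) (Lam t : ℝ) :
    Integrable (m2 a b lam Lam t) ∧ Measurable (m2 a b lam Lam t) := by
  obtain ⟨-, -, -, -, -, -, hc2, -⟩ := hJM a b
  have hm : Measurable (m2 a b lam Lam t) := by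
    unfold m2
    have h1 : Measurable (mT (d := a + b) lam t) := by
      unfold mT
      apply Measurable.mul
      · exact measurable_e.comp (by fun_prop)
      · exact Complex.measurable_ofReal.comp (chi_smooth.continuous.measurable.comp (by fun_prop))
    apply h1.mul
    apply Complex.measurable_ofReal.comp
    exact chi_smooth.continuous.measurable.comp (hc2.measurable.norm.div_const _)
  refine ⟨(mT_int hl t).norm.mono' hm.aestronglyMeasurable (ae_of_all _ fun ξ => ?_), hm⟩
  unfold m2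
  rw [norm_mul, Complex.norm_real, Real.norm_eq_abs]
  exact mul_le_of_le_one_right (norm_nonneg _) (chi_abs_le _)

theorem m2_cyl (hJM : T_JM) (a b : ℕ) (lam Lam t : ℝ) (η : EE a) (ρ : Ioi (0 : ℝ)) (u : Sp b) :
    m2 a b lam Lam t (jm a b η ((ρ : ℝ) • (u : EE b))) = mcm a lam Lam t (jo η (ρ : ℝ)) := by
  obtain ⟨h1, -, -, h4, -⟩ := hJM a b
  have h5 := (h1 η ((ρ : ℝ) • (u : EE b)))
  have h6 : ‖((ρ : ℝ) • (u : EE b))‖ = ρ := by
    rw [norm_smul, norm_sp, mul_one, Real.norm_of_nonneg (le_of_lt ρ.2)]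
  have h7 : ‖jm a b η ((ρ : ℝ) • (u : EE b))‖ = ‖jo η (ρ : ℝ)‖ := by
    have h8 := h4 (jm a b η ((ρ : ℝ) • (u : EE b)))
    rw [h5.1, h5.2, h6, ← jo_norm_sq] at h8
    exact (pow_left_inj₀ (norm_nonneg _) (norm_nonneg _) (by norm_num)).1 h8
  unfold m2 mcm mT
  rw [h5.2, h6, h7, jo_last]
  push_cast
  ring

theorem A2_cyl (hJM : T_JM) (a b : ℕ) (L : ℝ) (h : EE (a + b) → ℂ) (η : EE a) (ρ : Ioi (0 : ℝ))
    (u : Sp b) : A2 a b L h (jm a b η ((ρ : ℝ) • (u : EE b))) =
      ∫ v : Sp b, ((zk b L u v : ℝ) : ℂ) * h (jm a b η ((ρ : ℝ) • (v : EE b))) ∂(sg b) := by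
  obtain ⟨h1, -⟩ := hJM a b
  have h5 := (h1 η ((ρ : ℝ) • (u : EE b)))
  have h6 : ‖((ρ : ℝ) • (u : EE b))‖ = ρ := by
    rw [norm_smul, norm_sp, mul_one, Real.norm_of_nonneg (le_of_lt ρ.2)]
  unfold A2
  rw [h5.1, h5.2, h6, smul_smul, inv_mul_cancel₀ (ne_of_gt ρ.2), one_smul]

theorem pf_rbm (hAF : T_AF2) (hAM : T_AM2) (hZB : T_ZB) (hJM : T_JM) : T_RBm := by
  intro a b L lam Lam t B r y f w ha hb hL hlam hLam hf hr
  have hb1 : 1 ≤ b := by omega
  obtain ⟨C₀, hC₀⟩ := hZB b hb1
  obtain ⟨zm, -, z0, zb, -, -, -⟩ := hC₀ L hL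
  obtain ⟨am1, am2, -, am4, -, -⟩ := hAM a b L (A2 a b L) ha hb1 hL (Or.inr rfl)
  obtain ⟨jm1, -, jm3, -, jmc, jp1, jp2, -, -, -, jmp, -⟩ := hJM a b
  have jmp := jmp hb1
  have hfi : Integrable f := bcd_int hf
  obtain ⟨F, hF⟩ : ∃ F, F = A2 a b L f := ⟨_, rfl⟩
  rw [← hF]
  have hFm : Measurable F := by rw [hF]; exact am1 f hf.1
  have hFi : Integrable F := by rw [hF]; exact am4 f hf.1 hfi
  have hFb : ∀ x, ‖F x‖ ≤ B := by rw [hF]; exact am2 f B hf.1 hf.2.1
  have hG : ∀ ξ, 𝓕 (A2 a b L F) ξ = A2 a b L (𝓕 F) ξ := fun ξ =>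
    (hAF a b L F ha hb1 hL hFm hFi ⟨B, hFb⟩ ξ).2
  obtain ⟨h, hh⟩ : ∃ h, h = 𝓕 F := ⟨_, rfl⟩
  rw [← hh] at hG ⊢
  have hhm : Measurable h := by rw [hh]; exact fourier_meas' hFi
  obtain ⟨H, hH⟩ : ∃ H : ℝ, H = ∫ y, ‖F y‖ := ⟨_, rfl⟩
  have hhb : ∀ ξ, ‖h ξ‖ ≤ H := by
    intro ξ
    rw [hh, Pool.Agent.H19.LS.fourier_e, hH]
    refine (norm_integral_le_integral_norm _).trans (le_of_eq ?_)
    congr 1; ext y
    rw [norm_mul, norm_e, one_mul]
  have hH0 : 0 ≤ H := (norm_nonneg _).trans (hhb 0)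
  have hGm : Measurable (A2 a b L h) := am1 h hhm
  obtain ⟨hmi, hmm⟩ := m2_int hJM a b hlam Lam t
  have sfi := sfin a b
  -- the inner integrand
  obtain ⟨GG, hGG⟩ : ∃ GG : Sp b × (Ioi (0 : ℝ) × EE a) → Sp b → ℂ,
      GG = fun (q : Sp b × (Ioi (0 : ℝ) × EE a)) (v : Sp b) =>
      e (r * (q.2.1 : ℝ) * inner ℝ (w : EE b) (q.1 : EE b)) * (((zk b L q.1 v : ℝ) : ℂ) *
        (e (inner ℝ y q.2.2) * (mcm a lam Lam t (jo q.2.2 (q.2.1 : ℝ)) *
          h (jm a b q.2.2 ((q.2.1 : ℝ) • (v : EE b)))))) := ⟨_, rfl⟩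
  obtain ⟨K, hK⟩ : ∃ K : ℝ, K = |C₀ * L ^ (b - 1)| * H := ⟨_, rfl⟩
  have hmc : Integrable (fun q : Sp b × (Ioi (0 : ℝ) × EE a) =>
      mcm a lam Lam t (jo q.2.2 (q.2.1 : ℝ))) ((sg b).prod ((nu b).prod volume)) := by
    have h1 := jmp.integrable_comp_of_integrable hmi
    refine h1.congr (ae_of_all _ fun q => ?_)
    exact m2_cyl hJM a b lam Lam t q.2.2 q.2.1 q.1
  have hGGb : ∀ q v, ‖GG q v‖ ≤ ‖mcm a lam Lam t (jo q.2.2 (q.2.1 : ℝ))‖ * K := by
    intro q v
    rw [hGG]
    simp only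
    rw [norm_mul, norm_e, one_mul, norm_mul, norm_mul, norm_e, one_mul, norm_mul,
      Complex.norm_real, Real.norm_eq_abs]
    have h1 : |zk b L q.1 v| ≤ |C₀ * L ^ (b - 1)| := by
      rw [abs_of_nonneg (z0 _ _)]
      exact (zb _ _ (norm_sp _) (norm_sp _)).trans (le_abs_self _)
    calc _ ≤ |C₀ * L ^ (b - 1)| * (‖mcm a lam Lam t (jo q.2.2 (q.2.1 : ℝ))‖ * H) := by
          gcongr
          exact hhb _
      _ = _ := by rw [hK]; ring
  have hGGm : Measurable (fun p : (Sp b × (Ioi (0 : ℝ) × EE a)) × Sp b => GG p.1 p.2) := by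
    rw [hGG]
    have mu : Measurable fun p : (Sp b × (Ioi (0 : ℝ) × EE a)) × Sp b => (p.1.1 : EE b) :=
      measurable_subtype_coe.comp (measurable_fst.comp measurable_fst)
    have mv : Measurable fun p : (Sp b × (Ioi (0 : ℝ) × EE a)) × Sp b => (p.2 : EE b) :=
      measurable_subtype_coe.comp measurable_snd
    have mρ : Measurable fun p : (Sp b × (Ioi (0 : ℝ) × EE a)) × Sp b => (p.1.2.1 : ℝ) :=
      measurable_subtype_coe.comp (measurable_fst.comp (measurable_snd.comp measurable_fst))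
    have my : Measurable fun p : (Sp b × (Ioi (0 : ℝ) × EE a)) × Sp b => p.1.2.2 :=
      measurable_snd.comp (measurable_snd.comp measurable_fst)
    apply Measurable.mul
    · apply measurable_e.comp
      exact (measurable_const.mul mρ).mul (measurable_const.inner mu)
    · apply Measurable.mul
      · have h5 := Complex.measurable_ofReal.comp (zm.comp (mu.prodMk mv))
        exact h5
      · apply Measurable.mul
        · exact measurable_e.comp (measurable_const.inner my)
        · apply Measurable.mul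
          · exact (mcm_meas a lam Lam t).comp
              ((continuous_jo (n := a)).measurable.comp (my.prodMk mρ))
          · exact hhm.comp (jmc.measurable.comp (my.prodMk (mρ.smul mv)))
  have hGGi : Integrable (fun p : (Sp b × (Ioi (0 : ℝ) × EE a)) × Sp b => GG p.1 p.2)
      (((sg b).prod ((nu b).prod volume)).prod (sg b)) := by
    have h1 : Integrable (fun p : (Sp b × (Ioi (0 : ℝ) × EE a)) × Sp b =>
        ‖mcm a lam Lam t (jo p.1.2.2 (p.1.2.1 : ℝ))‖ * K)
          (((sg b).prod ((nu b).prod volume)).prod (sg b)) :=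
      hmc.norm.mul_prod (integrable_const K)
    refine h1.mono' hGGm.aestronglyMeasurable (ae_of_all _ fun p => hGGb _ _)
  have hGGi' : ∀ v : Sp b, Integrable (fun q : Sp b × (Ioi (0 : ℝ) × EE a) => GG q v)
      ((sg b).prod ((nu b).prod volume)) := by
    intro v
    refine (hmc.norm.mul_const K).mono' ?_ (ae_of_all _ fun p => hGGb _ _)
    exact (hGGm.comp (measurable_id.prodMk measurable_const)).aestronglyMeasurable
  -- the outer integrand
  obtain ⟨KK', hKK⟩ : ∃ KK' : Sp b → EE (a + 1) → ℂ, KK' = fun (v : Sp b) (ζ : EE (a + 1)) =>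
      (starRingEnd ℂ) (ZL b L (r * ζ (Fin.last a)) w v) *
        (e (inner ℝ y (pr ζ)) * (mcm a lam Lam t ζ *
          h (jm a b (pr ζ) (ζ (Fin.last a) • (v : EE b))))) := ⟨_, rfl⟩
  have hKKm : ∀ v, Measurable (KK' v) := by
    intro v
    rw [hKK]
    apply Measurable.mul
    · have h1 : Measurable fun ζ : EE (a + 1) => ((ζ (Fin.last a), (0 : ℝ)) : ℝ × ℝ) :=
        (last_meas a).prodMk measurable_const
      have h2 := (meas_ZL zm r w v).comp h1
      exact Complex.continuous_conj.measurable.comp h2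
    · apply Measurable.mul
      · exact measurable_e.comp (measurable_const.inner continuous_pr.measurable)
      · apply Measurable.mul (mcm_meas a lam Lam t)
        exact hhm.comp (jmc.measurable.comp
          (continuous_pr.measurable.prodMk ((last_meas a).smul measurable_const)))
  have main : MM (m2 a b lam Lam t) (A2 a b L F) (jm a b y (r • (w : EE b))) =
      ∫ v : Sp b, ∫ ζ in HS a, ((ζ (Fin.last a) ^ (b - 1) : ℝ) : ℂ) * KK' v ζ ∂volume ∂(sg b) := by
    have hΦm : Measurable (fun ξ : EE (a + b) => e (inner ℝ (jm a b y (r • (w : EE b))) ξ) *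
        (m2 a b lam Lam t ξ * A2 a b L h ξ)) := by
      apply Measurable.mul
      · exact measurable_e.comp (by fun_prop)
      · exact hmm.mul hGm
    calc MM (m2 a b lam Lam t) (A2 a b L F) (jm a b y (r • (w : EE b)))
        = ∫ ξ : EE (a + b), e (inner ℝ (jm a b y (r • (w : EE b))) ξ) *
            (m2 a b lam Lam t ξ * A2 a b L h ξ) := by
          unfold MM
          simp_rw [hG]
      _ = ∫ q : Sp b × (Ioi (0 : ℝ) × EE a), ∫ v : Sp b, GG q v ∂(sg b)
            ∂((sg b).prod ((nu b).prod volume)) := by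
          rw [← integral_mp jmp hΦm.aestronglyMeasurable]
          refine integral_congr_ae (ae_of_all _ fun q => ?_)
          simp only
          rw [m2_cyl hJM, A2_cyl hJM, ← integral_const_mul, ← integral_const_mul]
          refine integral_congr_ae (ae_of_all _ fun v => ?_)
          simp only
          rw [hGG]
          simp only
          rw [jm3, (jm1 _ _).1, (jm1 _ _).2, (jm1 _ _).1, (jm1 _ _).2, inner_smul_left,
            inner_smul_right]
          have h2 : inner ℝ y q.2.2 + (starRingEnd ℝ) r * ((q.2.1 : ℝ) *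
              inner ℝ (w : EE b) (q.1 : EE b)) =
              r * (q.2.1 : ℝ) * inner ℝ (w : EE b) (q.1 : EE b) + inner ℝ y q.2.2 := by
            simp only [conj_trivial]
            ring
          rw [h2, e_add]
          ring
      _ = ∫ v : Sp b, ∫ q : Sp b × (Ioi (0 : ℝ) × EE a), GG q v
            ∂((sg b).prod ((nu b).prod volume)) ∂(sg b) := integral_integral_swap hGGi
      _ = ∫ v : Sp b, ∫ ζ in HS a, ((ζ (Fin.last a) ^ (b - 1) : ℝ) : ℂ) * KK' v ζ
            ∂volume ∂(sg b) := by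
          refine integral_congr_ae (ae_of_all _ fun v => ?_)
          simp only
          rw [← int_halfm a b _ (hKKm v), integral_prod_symm _ (hGGi' v)]
          refine integral_congr_ae (ae_of_all _ fun s => ?_)
          simp only
          rw [hKK]
          simp only
          rw [jo_last, pr_jo, conj_ZL, ← integral_mul_const]
          refine integral_congr_ae (ae_of_all _ fun u => ?_)
          simp only
          rw [hGG]
          simp only
          ring
  rw [main, ← integral_const_mul]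
  refine integral_congr_ae (ae_of_all _ fun v => ?_)
  simp only
  rw [← integral_const_mul]
  refine setIntegral_congr_fun (HS_meas a) fun ζ hζ => ?_
  have hζ' : 0 < ζ (Fin.last a) := hζ
  rw [hKK]
  simp only
  unfold mcm
  rw [e_add]
  have h3 : (ζ (Fin.last a) ^ (b - 1) : ℝ) =
      ζ (Fin.last a) ^ (((b : ℝ) - 1) / 2) * ζ (Fin.last a) ^ (((b : ℝ) - 1) / 2) := by
    rw [← Real.rpow_add hζ', ← Real.rpow_natCast]
    congr 1
    rw [Nat.cast_sub hb1]
    push_cast
    ring
  rw [h3, Real.mul_rpow hr.le hζ'.le]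
  push_cast
  ring

end Pool.Agent.H12.BR
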