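import Pool.Agent.H79.BR.Targets

/-!
Local smoothing with one angular derivative: module SU (sup bound for the pieces).
-/

set_option autoImplicit false

namespace Pool.Agent.H12.BR

open MeasureTheory Set FourierTransform
open Pool.Agent.H83.LS Pool.Agent.H93.AR Pool.Agent.H54.LS Pool.Agent.H14.LS Pool.Agent.H83.AR
open Pool.Agent.H79.BR
open scoped ENNReal NNReal

theorem pf_su (hCL1 : T_CL1) (hPLE : T_PLE) : T_SU := by
  intro n hn
  obtain ⟨C, hC0, hC⟩ := hCL1 n hn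
  refine ⟨C, hC0, ?_⟩
  intro lam Lam t A f hl hL hLl ht hf x
  have hA := bcd_nonneg hf
  have hl0 : 0 < lam := by linarith
  obtain ⟨h1, _⟩ := hPLE (n + 1) (mj n lam Lam t) f (mj_meas' n lam Lam t)
    (fun ξ => le_trans (mj_le n lam Lam t ξ) (mT_norm lam t ξ)) (mj_int n hl0 Lam t) (bcd_int hf)
    ⟨A, hf.2.1⟩ hf.1
  have hnn : 0 ≤ C * (1 + Lam ^ 2 / lam) ^ ((n : ℝ) / 2) := by positivity
  have h3 : ‖MM (mj n lam Lam t) f x‖ₑ ≤
      ENNReal.ofReal (C * (1 + Lam ^ 2 / lam) ^ ((n : ℝ) / 2) * A) := by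
    rw [h1]
    refine le_trans (enorm_integral_le_lintegral_enorm _) ?_
    calc ∫⁻ y, ‖MK (mj n lam Lam t) (x - y) * f y‖ₑ
        ≤ ∫⁻ y, ‖MK (mj n lam Lam t) (x - y)‖ₑ * ENNReal.ofReal A := by
          refine lintegral_mono fun y => ?_
          rw [enorm_mul]
          gcongr
          rw [← ofReal_norm]
          exact ENNReal.ofReal_le_ofReal (hf.2.1 y)
      _ = (∫⁻ y, ‖MK (mj n lam Lam t) y‖ₑ) * ENNReal.ofReal A := by
          rw [lintegral_mul_const' _ _ ENNReal.ofReal_ne_top,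
            lintegral_sub_left_eq_self (fun y => ‖MK (mj n lam Lam t) y‖ₑ) x]
      _ ≤ ENNReal.ofReal (C * (1 + Lam ^ 2 / lam) ^ ((n : ℝ) / 2)) * ENNReal.ofReal A := by
          gcongr
          exact hC lam Lam t hl hL hLl ht
      _ = _ := by
          rw [ENNReal.ofReal_mul hnn]
  rw [← ofReal_norm] at h3
  exact (ENNReal.ofReal_le_ofReal_iff (mul_nonneg hnn hA)).1 h3

end Pool.Agent.H12.BR
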